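import Pool.Agent.Helper74.FB.Jet
import Pool.Agent.Helper74.FB.K5Pos

/-!
# The Fraser-Schoen boundary volume inequality for five-dimensional submanifolds

For every free boundary stationary submanifold of dimension five in the unit ball of any Euclidean
space and every conformal automorphism of the ball, the boundary volume does not increase.
-/

open MeasureTheory Module Metric
open scoped RealInnerProductSpace ContDiff Topology

namespace Pool.Agent.Helper74.BV5

open FBM FBM5 FBR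

variable {n : ℕ}

/-- The coefficient of `r ^ 2` in the free part of the stream function. -/
noncomputable def p2 (c : ℝ) : ℝ := (83 / 250) + (41 / 200) * c + (-(59 / 1000)) * c ^ 2 + (1 / 500) * c ^ 3
/-- Its derivative. -/
noncomputable def p2c (c : ℝ) : ℝ := (41 / 200) + (-(59 / 500)) * c + (3 / 500) * c ^ 2
/-- Its second derivative. -/
noncomputable def p2cc (c : ℝ) : ℝ := (-(59 / 500)) + (3 / 250) * c

/-- The coefficient of `r ^ 3` in the free part of the stream function. -/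
noncomputable def p3 (c : ℝ) : ℝ := (-(1019 / 500)) + (1051 / 200) * c + (302 / 125) * c ^ 2 + (-(621 / 200)) * c ^ 3
/-- Its derivative. -/
noncomputable def p3c (c : ℝ) : ℝ := (1051 / 200) + (604 / 125) * c + (-(1863 / 200)) * c ^ 2
/-- Its second derivative. -/
noncomputable def p3cc (c : ℝ) : ℝ := (604 / 125) + (-(1863 / 100)) * c

/-- The coefficient of `r ^ 4` in the free part of the stream function. -/
noncomputable def p4 (c : ℝ) : ℝ := (6891 / 200) + (-(1603 / 20)) * c + (8221 / 200) * c ^ 2 + (247 / 50) * c ^ 3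
/-- Its derivative. -/
noncomputable def p4c (c : ℝ) : ℝ := (-(1603 / 20)) + (8221 / 100) * c + (741 / 50) * c ^ 2
/-- Its second derivative. -/
noncomputable def p4cc (c : ℝ) : ℝ := (8221 / 100) + (741 / 25) * c

/-- The coefficient of `r ^ 5` in the free part of the stream function. -/
noncomputable def p5 (c : ℝ) : ℝ := (-(30669 / 200)) + (388263 / 1000) * c + (-(313843 / 1000)) * c ^ 2 + (15871 / 200) * c ^ 3
/-- Its derivative. -/
noncomputable def p5c (c : ℝ) : ℝ := (388263 / 1000) + (-(313843 / 500)) * c + (47613 / 200) * c ^ 2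
/-- Its second derivative. -/
noncomputable def p5cc (c : ℝ) : ℝ := (-(313843 / 500)) + (47613 / 100) * c

/-- The coefficient of `r ^ 6` in the free part of the stream function. -/
noncomputable def p6 (c : ℝ) : ℝ := (102599 / 500) + (-(274983 / 500)) * c + (493001 / 1000) * c ^ 2 + (-(37403 / 250)) * c ^ 3
/-- Its derivative. -/
noncomputable def p6c (c : ℝ) : ℝ := (-(274983 / 500)) + (493001 / 500) * c + (-(112209 / 250)) * c ^ 2
/-- Its second derivative. -/
noncomputable def p6cc (c : ℝ) : ℝ := (493001 / 500) + (-(112209 / 125)) * c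

/-- The free part of the stream function. -/
noncomputable def G (r c : ℝ) : ℝ :=
  (1) * (r ^ 2 * p2 c) + (1) * (r ^ 3 * p3 c) + (1) * (r ^ 4 * p4 c) + (1) * (r ^ 5 * p5 c) + (1) * (r ^ 6 * p6 c)
/-- `∂ G`, where `∂ r = -r`. -/
noncomputable def G1 (r c : ℝ) : ℝ :=
  (-2) * (r ^ 2 * p2 c) + (-3) * (r ^ 3 * p3 c) + (-4) * (r ^ 4 * p4 c) + (-5) * (r ^ 5 * p5 c) + (-6) * (r ^ 6 * p6 c)
/-- `∂ ∂ G`. -/
noncomputable def G2 (r c : ℝ) : ℝ :=
  (4) * (r ^ 2 * p2 c) + (9) * (r ^ 3 * p3 c) + (16) * (r ^ 4 * p4 c) + (25) * (r ^ 5 * p5 c) + (36) * (r ^ 6 * p6 c)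
/-- `G_c`. -/
noncomputable def Gc (r c : ℝ) : ℝ :=
  (1) * (r ^ 2 * p2c c) + (1) * (r ^ 3 * p3c c) + (1) * (r ^ 4 * p4c c) + (1) * (r ^ 5 * p5c c) + (1) * (r ^ 6 * p6c c)
/-- `∂ G_c`. -/
noncomputable def G1c (r c : ℝ) : ℝ :=
  (-2) * (r ^ 2 * p2c c) + (-3) * (r ^ 3 * p3c c) + (-4) * (r ^ 4 * p4c c) + (-5) * (r ^ 5 * p5c c) + (-6) * (r ^ 6 * p6c c)
/-- `G_cc`. -/
noncomputable def Gcc (r c : ℝ) : ℝ :=
  (1) * (r ^ 2 * p2cc c) + (1) * (r ^ 3 * p3cc c) + (1) * (r ^ 4 * p4cc c) + (1) * (r ^ 5 * p5cc c) + (1) * (r ^ 6 * p6cc c)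

/-- Coefficient function. -/
noncomputable def h (c : ℝ) : ℝ := (2 * c + 3) / 12 * ((1 + c)⁻¹) ^ 2
/-- Derivative of `h`. -/
noncomputable def hc (c : ℝ) : ℝ := 1 / 6 * ((1 + c)⁻¹) ^ 2 - (2 * c + 3) / 6 * ((1 + c)⁻¹) ^ 3
/-- Second derivative of `h`. -/
noncomputable def hcc (c : ℝ) : ℝ :=
  -(2 / 3 * ((1 + c)⁻¹) ^ 3) + (2 * c + 3) / 2 * ((1 + c)⁻¹) ^ 4
/-- Coefficient function. -/
noncomputable def g (c : ℝ) : ℝ := (3 * c + 4) / 12 * ((1 + c)⁻¹) ^ 2
/-- Derivative of `g`. -/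
noncomputable def gc (c : ℝ) : ℝ := 1 / 4 * ((1 + c)⁻¹) ^ 2 - (3 * c + 4) / 6 * ((1 + c)⁻¹) ^ 3
/-- Second derivative of `g`. -/
noncomputable def gcc (c : ℝ) : ℝ :=
  -(((1 + c)⁻¹) ^ 3) + (3 * c + 4) / 2 * ((1 + c)⁻¹) ^ 4

/-- The stream function. -/
noncomputable def B (r q c : ℝ) : ℝ :=
  1 / 3 * (r + q) ^ 2 - r * q + q * h c + 1 / 4 * r - r * (r + q) * g c + (c - r - q) * G r c
/-- `∂ B`, where `∂ r = -r`, `∂ q = q`. -/
noncomputable def B1 (r q c : ℝ) : ℝ :=
  2 / 3 * (q ^ 2 - r ^ 2) + q * h c - 1 / 4 * r + 2 * r ^ 2 * g c + (r - q) * G r c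
    + (c - r - q) * G1 r c
/-- `∂ ∂ B`. -/
noncomputable def B2 (r q c : ℝ) : ℝ :=
  4 / 3 * (q ^ 2 + r ^ 2) + q * h c + 1 / 4 * r - 4 * r ^ 2 * g c - (r + q) * G r c
    + 2 * (r - q) * G1 r c + (c - r - q) * G2 r c
/-- `B_c`. -/
noncomputable def Bc (r q c : ℝ) : ℝ :=
  q * hc c - r * (r + q) * gc c + G r c + (c - r - q) * Gc r c
/-- `B_cc`. -/
noncomputable def Bcc (r q c : ℝ) : ℝ :=
  q * hcc c - r * (r + q) * gcc c + 2 * Gc r c + (c - r - q) * Gcc r c
/-- `∂ B_c`. -/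
noncomputable def B1c (r q c : ℝ) : ℝ :=
  q * hc c + 2 * r ^ 2 * gc c + G1 r c + (r - q) * Gc r c + (c - r - q) * G1c r c

/-- The radial profile. -/
noncomputable def F5 (y z : E n) : ℝ :=
  1 / 4 + 4 * (cf y z * B (rf y z) (qf y z) (cf y z))
    - (1 - cf y z ^ 2) * Bc (rf y z) (qf y z) (cf y z)

/-- The angular profile. -/
noncomputable def b5 (y z : E n) : ℝ := B1 (rf y z) (qf y z) (cf y z)

section Jets

variable {y x : E n}

theorem jp2 (hy : 0 < ‖y‖) (hx : 0 < ‖x - y‖) :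
    HasJet y x (fun z => p2 (cf y z)) 0 (p2c (cf y x)) := by
  have hc := HasJet.c hy hx
  refine ((((HasJet.const (83 / 250)).add ((HasJet.const (41 / 200)).mul hc)).add ((HasJet.const (-(59 / 1000))).mul (hc.pow 2))).add ((HasJet.const (1 / 500)).mul (hc.pow 3))).congr ?_ ?_
  · norm_num
  · unfold p2c
    norm_num
    ring

theorem jp2c (hy : 0 < ‖y‖) (hx : 0 < ‖x - y‖) :
    HasJet y x (fun z => p2c (cf y z)) 0 (p2cc (cf y x)) := by
  have hc := HasJet.c hy hx
  refine (((HasJet.const (41 / 200)).add ((HasJet.const (-(59 / 500))).mul hc)).add ((HasJet.const (3 / 500)).mul (hc.pow 2))).congr ?_ ?_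
  · norm_num
  · unfold p2cc
    norm_num
    ring

theorem jp3 (hy : 0 < ‖y‖) (hx : 0 < ‖x - y‖) :
    HasJet y x (fun z => p3 (cf y z)) 0 (p3c (cf y x)) := by
  have hc := HasJet.c hy hx
  refine ((((HasJet.const (-(1019 / 500))).add ((HasJet.const (1051 / 200)).mul hc)).add ((HasJet.const (302 / 125)).mul (hc.pow 2))).add ((HasJet.const (-(621 / 200))).mul (hc.pow 3))).congr ?_ ?_
  · norm_num
  · unfold p3c
    norm_num
    ring

theorem jp3c (hy : 0 < ‖y‖) (hx : 0 < ‖x - y‖) :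
    HasJet y x (fun z => p3c (cf y z)) 0 (p3cc (cf y x)) := by
  have hc := HasJet.c hy hx
  refine (((HasJet.const (1051 / 200)).add ((HasJet.const (604 / 125)).mul hc)).add ((HasJet.const (-(1863 / 200))).mul (hc.pow 2))).congr ?_ ?_
  · norm_num
  · unfold p3cc
    norm_num
    ring

theorem jp4 (hy : 0 < ‖y‖) (hx : 0 < ‖x - y‖) :
    HasJet y x (fun z => p4 (cf y z)) 0 (p4c (cf y x)) := by
  have hc := HasJet.c hy hx
  refine ((((HasJet.const (6891 / 200)).add ((HasJet.const (-(1603 / 20))).mul hc)).add ((HasJet.const (8221 / 200)).mul (hc.pow 2))).add ((HasJet.const (247 / 50)).mul (hc.pow 3))).congr ?_ ?_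
  · norm_num
  · unfold p4c
    norm_num
    ring

theorem jp4c (hy : 0 < ‖y‖) (hx : 0 < ‖x - y‖) :
    HasJet y x (fun z => p4c (cf y z)) 0 (p4cc (cf y x)) := by
  have hc := HasJet.c hy hx
  refine (((HasJet.const (-(1603 / 20))).add ((HasJet.const (8221 / 100)).mul hc)).add ((HasJet.const (741 / 50)).mul (hc.pow 2))).congr ?_ ?_
  · norm_num
  · unfold p4cc
    norm_num
    ring

theorem jp5 (hy : 0 < ‖y‖) (hx : 0 < ‖x - y‖) :
    HasJet y x (fun z => p5 (cf y z)) 0 (p5c (cf y x)) := by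
  have hc := HasJet.c hy hx
  refine ((((HasJet.const (-(30669 / 200))).add ((HasJet.const (388263 / 1000)).mul hc)).add ((HasJet.const (-(313843 / 1000))).mul (hc.pow 2))).add ((HasJet.const (15871 / 200)).mul (hc.pow 3))).congr ?_ ?_
  · norm_num
  · unfold p5c
    norm_num
    ring

theorem jp5c (hy : 0 < ‖y‖) (hx : 0 < ‖x - y‖) :
    HasJet y x (fun z => p5c (cf y z)) 0 (p5cc (cf y x)) := by
  have hc := HasJet.c hy hx
  refine (((HasJet.const (388263 / 1000)).add ((HasJet.const (-(313843 / 500))).mul hc)).add ((HasJet.const (47613 / 200)).mul (hc.pow 2))).congr ?_ ?_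
  · norm_num
  · unfold p5cc
    norm_num
    ring

theorem jp6 (hy : 0 < ‖y‖) (hx : 0 < ‖x - y‖) :
    HasJet y x (fun z => p6 (cf y z)) 0 (p6c (cf y x)) := by
  have hc := HasJet.c hy hx
  refine ((((HasJet.const (102599 / 500)).add ((HasJet.const (-(274983 / 500))).mul hc)).add ((HasJet.const (493001 / 1000)).mul (hc.pow 2))).add ((HasJet.const (-(37403 / 250))).mul (hc.pow 3))).congr ?_ ?_
  · norm_num
  · unfold p6c
    norm_num
    ring

theorem jp6c (hy : 0 < ‖y‖) (hx : 0 < ‖x - y‖) :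
    HasJet y x (fun z => p6c (cf y z)) 0 (p6cc (cf y x)) := by
  have hc := HasJet.c hy hx
  refine (((HasJet.const (-(274983 / 500))).add ((HasJet.const (493001 / 500)).mul hc)).add ((HasJet.const (-(112209 / 250))).mul (hc.pow 2))).congr ?_ ?_
  · norm_num
  · unfold p6cc
    norm_num
    ring

theorem jG (hy : 0 < ‖y‖) (hx : 0 < ‖x - y‖) :
    HasJet y x (fun z => G (rf y z) (cf y z)) (G1 (rf y x) (cf y x)) (Gc (rf y x) (cf y x)) := by
  have hr := HasJet.r hx
  refine ((((((HasJet.const (1)).mul ((hr.pow 2).mul (jp2 hy hx))).add ((HasJet.const (1)).mul ((hr.pow 3).mul (jp3 hy hx)))).add ((HasJet.const (1)).mul ((hr.pow 4).mul (jp4 hy hx)))).add ((HasJet.const (1)).mul ((hr.pow 5).mul (jp5 hy hx)))).add ((HasJet.const (1)).mul ((hr.pow 6).mul (jp6 hy hx)))).congr ?_ ?_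
  · unfold G1
    norm_num
    ring
  · unfold Gc
    norm_num

theorem jG1 (hy : 0 < ‖y‖) (hx : 0 < ‖x - y‖) :
    HasJet y x (fun z => G1 (rf y z) (cf y z)) (G2 (rf y x) (cf y x)) (G1c (rf y x) (cf y x)) := by
  have hr := HasJet.r hx
  refine ((((((HasJet.const (-2)).mul ((hr.pow 2).mul (jp2 hy hx))).add ((HasJet.const (-3)).mul ((hr.pow 3).mul (jp3 hy hx)))).add ((HasJet.const (-4)).mul ((hr.pow 4).mul (jp4 hy hx)))).add ((HasJet.const (-5)).mul ((hr.pow 5).mul (jp5 hy hx)))).add ((HasJet.const (-6)).mul ((hr.pow 6).mul (jp6 hy hx)))).congr ?_ ?_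
  · unfold G2
    norm_num
    ring
  · unfold G1c
    norm_num

theorem jGc (hy : 0 < ‖y‖) (hx : 0 < ‖x - y‖) :
    HasJet y x (fun z => Gc (rf y z) (cf y z)) (G1c (rf y x) (cf y x)) (Gcc (rf y x) (cf y x)) := by
  have hr := HasJet.r hx
  refine ((((((HasJet.const (1)).mul ((hr.pow 2).mul (jp2c hy hx))).add ((HasJet.const (1)).mul ((hr.pow 3).mul (jp3c hy hx)))).add ((HasJet.const (1)).mul ((hr.pow 4).mul (jp4c hy hx)))).add ((HasJet.const (1)).mul ((hr.pow 5).mul (jp5c hy hx)))).add ((HasJet.const (1)).mul ((hr.pow 6).mul (jp6c hy hx)))).congr ?_ ?_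
  · unfold G1c
    norm_num
    ring
  · unfold Gcc
    norm_num

theorem jh (hy : 0 < ‖y‖) (hx : 0 < ‖x - y‖) (h1 : 0 < 1 + cf y x) :
    HasJet y x (fun z => h (cf y z)) 0 (hc (cf y x)) := by
  have hc := HasJet.c hy hx
  have hi := ((HasJet.const 1).add hc).inv h1.ne'
  have h2 := (((HasJet.const (1 / 6)).mul hc).add (HasJet.const (1 / 4))).mul (hi.pow 2)
  have e : (fun z => h (cf y z)) = fun z => (1 / 6 * cf y z + 1 / 4) * ((1 + cf y z)⁻¹) ^ 2 := by
    funext z
    unfold h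
    ring
  rw [e]
  refine h2.congr ?_ ?_
  · norm_num
  · unfold BV5.hc
    norm_num
    field_simp
    ring

theorem jhc (hy : 0 < ‖y‖) (hx : 0 < ‖x - y‖) (h1 : 0 < 1 + cf y x) :
    HasJet y x (fun z => hc (cf y z)) 0 (hcc (cf y x)) := by
  have hc' := HasJet.c hy hx
  have hi := ((HasJet.const 1).add hc').inv h1.ne'
  have h2 := ((HasJet.const (1 / 6)).mul (hi.pow 2)).sub
    ((((HasJet.const (1 / 3)).mul hc').add (HasJet.const (1 / 2))).mul (hi.pow 3))
  have e : (fun z => hc (cf y z)) = fun z => 1 / 6 * ((1 + cf y z)⁻¹) ^ 2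
      - (1 / 3 * cf y z + 1 / 2) * ((1 + cf y z)⁻¹) ^ 3 := by
    funext z
    unfold hc
    ring
  rw [e]
  refine h2.congr ?_ ?_
  · norm_num
  · unfold hcc
    norm_num
    field_simp
    ring

theorem jg (hy : 0 < ‖y‖) (hx : 0 < ‖x - y‖) (h1 : 0 < 1 + cf y x) :
    HasJet y x (fun z => g (cf y z)) 0 (gc (cf y x)) := by
  have hc := HasJet.c hy hx
  have hi := ((HasJet.const 1).add hc).inv h1.ne'
  have h2 := (((HasJet.const (1 / 4)).mul hc).add (HasJet.const (1 / 3))).mul (hi.pow 2)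
  have e : (fun z => g (cf y z)) = fun z => (1 / 4 * cf y z + 1 / 3) * ((1 + cf y z)⁻¹) ^ 2 := by
    funext z
    unfold g
    ring
  rw [e]
  refine h2.congr ?_ ?_
  · norm_num
  · unfold gc
    norm_num
    field_simp
    ring

theorem jgc (hy : 0 < ‖y‖) (hx : 0 < ‖x - y‖) (h1 : 0 < 1 + cf y x) :
    HasJet y x (fun z => gc (cf y z)) 0 (gcc (cf y x)) := by
  have hc := HasJet.c hy hx
  have hi := ((HasJet.const 1).add hc).inv h1.ne'
  have h2 := ((HasJet.const (1 / 4)).mul (hi.pow 2)).sub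
    ((((HasJet.const (1 / 2)).mul hc).add (HasJet.const (2 / 3))).mul (hi.pow 3))
  have e : (fun z => gc (cf y z)) = fun z => 1 / 4 * ((1 + cf y z)⁻¹) ^ 2
      - (1 / 2 * cf y z + 2 / 3) * ((1 + cf y z)⁻¹) ^ 3 := by
    funext z
    unfold gc
    ring
  rw [e]
  refine h2.congr ?_ ?_
  · norm_num
  · unfold gcc
    norm_num
    field_simp
    ring

theorem jB (hy : 0 < ‖y‖) (hx : 0 < ‖x - y‖) (h1 : 0 < 1 + cf y x) :
    HasJet y x (fun z => B (rf y z) (qf y z) (cf y z)) (B1 (rf y x) (qf y x) (cf y x))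
      (Bc (rf y x) (qf y x) (cf y x)) := by
  have hr := HasJet.r hx
  have hq := HasJet.q hx
  have hc := HasJet.c hy hx
  refine ((((((HasJet.const (1 / 3)).mul ((hr.add hq).pow 2)).sub (hr.mul hq)).add
    (hq.mul (jh hy hx h1))).add ((HasJet.const (1 / 4)).mul hr)).sub
    ((hr.mul (hr.add hq)).mul (jg hy hx h1))).add
    (((hc.sub hr).sub hq).mul (jG hy hx)) |>.congr ?_ ?_
  · unfold B1
    norm_num
    ring
  · unfold Bc
    norm_num
    ring

theorem jB1 (hy : 0 < ‖y‖) (hx : 0 < ‖x - y‖) (h1 : 0 < 1 + cf y x) :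
    HasJet y x (fun z => B1 (rf y z) (qf y z) (cf y z)) (B2 (rf y x) (qf y x) (cf y x))
      (B1c (rf y x) (qf y x) (cf y x)) := by
  have hr := HasJet.r hx
  have hq := HasJet.q hx
  have hc := HasJet.c hy hx
  refine ((((((HasJet.const (2 / 3)).mul ((hq.pow 2).sub (hr.pow 2))).add
    (hq.mul (jh hy hx h1))).sub ((HasJet.const (1 / 4)).mul hr)).add
    (((HasJet.const 2).mul (hr.pow 2)).mul (jg hy hx h1))).add
    ((hr.sub hq).mul (jG hy hx))).add (((hc.sub hr).sub hq).mul (jG1 hy hx)) |>.congr ?_ ?_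
  · unfold B2
    norm_num
    ring
  · unfold B1c
    norm_num
    ring

theorem jBc (hy : 0 < ‖y‖) (hx : 0 < ‖x - y‖) (h1 : 0 < 1 + cf y x) :
    HasJet y x (fun z => Bc (rf y z) (qf y z) (cf y z)) (B1c (rf y x) (qf y x) (cf y x))
      (Bcc (rf y x) (qf y x) (cf y x)) := by
  have hr := HasJet.r hx
  have hq := HasJet.q hx
  have hc' := HasJet.c hy hx
  refine ((((hq.mul (jhc hy hx h1)).sub ((hr.mul (hr.add hq)).mul (jgc hy hx h1))).add
    (jG hy hx)).add (((hc'.sub hr).sub hq).mul (jGc hy hx))).congr ?_ ?_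
  · unfold B1c
    ring
  · unfold Bcc
    ring

end Jets

/-- The logarithmic radial derivative of `F5`. -/
noncomputable def F51 (r q c : ℝ) : ℝ := 4 * (c * B1 r q c) - (1 - c ^ 2) * B1c r q c
/-- The angular derivative of `F5`. -/
noncomputable def F5c (r q c : ℝ) : ℝ :=
  4 * B r q c + 6 * (c * Bc r q c) - (1 - c ^ 2) * Bcc r q c

theorem jF (y x : E n) (hy : 0 < ‖y‖) (hx : 0 < ‖x - y‖) (h1 : 0 < 1 + cf y x) :
    HasJet y x (F5 y) (F51 (rf y x) (qf y x) (cf y x)) (F5c (rf y x) (qf y x) (cf y x)) := by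
  have hc := HasJet.c hy hx
  refine (((HasJet.const (1 / 4)).add ((HasJet.const 4).mul (hc.mul (jB hy hx h1)))).sub
    (((HasJet.const 1).sub (hc.pow 2)).mul (jBc hy hx h1))).congr ?_ ?_
  · unfold F51
    norm_num
  · unfold F5c
    norm_num
    ring

theorem contDiffAt_F5 (y x : E n) (hx : 0 < ‖x - y‖) (h1 : 0 < 1 + cf y x) :
    ContDiffAt ℝ ∞ (F5 y) x := by
  have hr := contDiffAt_r y x hx
  have hq := contDiffAt_q y x hx
  have hc' := contDiffAt_c y x hx
  have hi : ContDiffAt ℝ ∞ (fun z => (1 + cf y z)⁻¹) x := (contDiffAt_const.add hc').inv h1.ne'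
  unfold F5 B Bc h g hc gc G Gc p2 p3 p4 p5 p6 p2c p3c p4c p5c p6c
  fun_prop

theorem contDiffAt_b5 (y x : E n) (hx : 0 < ‖x - y‖) (h1 : 0 < 1 + cf y x) :
    ContDiffAt ℝ ∞ (b5 y) x := by
  have hr := contDiffAt_r y x hx
  have hq := contDiffAt_q y x hx
  have hc' := contDiffAt_c y x hx
  have hi : ContDiffAt ℝ ∞ (fun z => (1 + cf y z)⁻¹) x := (contDiffAt_const.add hc').inv h1.ne'
  unfold b5 B1 h g G G1 p2 p3 p4 p5 p6
  fun_prop

theorem B1c_eq (r q c : ℝ) (h1 : 0 < 1 + c) :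
    B1c r q c = -(ev3 r q c Pl / (3000 * (1 + c) ^ 3)) := by
  unfold B1c hc gc G1 Gc G1c p2 p3 p4 p5 p6 p2c p3c p4c p5c p6c Pl
  simp only [ev3, ev2, ev1, evL, ev0]
  field_simp
  push_cast
  ring

theorem Om_eq (r q c : ℝ) (h1 : 0 < 1 + c) :
    F5c r q c - 5 * B1 r q c + B2 r q c = ev3 r q c Ol / (3000 * (1 + c) ^ 2) := by
  unfold F5c B1 B2 B Bc Bcc h hc hcc g gc gcc G G1 G2 Gc Gcc
    p2 p3 p4 p5 p6 p2c p3c p4c p5c p6c p2cc p3cc p4cc p5cc p6cc Ol
  simp only [ev3, ev2, ev1, evL, ev0]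
  field_simp
  push_cast
  ring

theorem E_eq (r q c : ℝ) (h1 : 0 < 1 + c) :
    5 * (1 / 4 + 4 * (c * B r q c) - (1 - c ^ 2) * Bc r q c) - F51 r q c - c * B1 r q c
      = ev3 r q c El / (3000 * (1 + c) ^ 2) := by
  unfold F51 B1 B1c B Bc h hc g gc G G1 Gc G1c p2 p3 p4 p5 p6 p2c p3c p4c p5c p6c El
  simp only [ev3, ev2, ev1, evL, ev0]
  field_simp
  push_cast
  ring

/-- **The Fraser-Schoen inequality in dimension five.** Let `(μ, u, T, σ, b)` be free boundary
stationary data of dimension `5` in the unit ball of `ℝ ^ n` and let `‖y‖ > 1`. The conformal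
automorphism of the ball with pole `y` has conformal factor `(‖y‖ ^ 2 - 1) / ‖x - y‖ ^ 2`, so the
integral on the left is the volume of the image of the boundary. In the case of equality almost
every tangent space contains the position vector and `y`. -/
theorem main {n : ℕ} {S Γ : Type*} [MeasurableSpace S] [MeasurableSpace Γ] {μ : Measure S}
    {u : S → E n} {T : S → Submodule ℝ (E n)} {σ : Measure Γ} {b : Γ → E n}
    (h : IsFreeBoundaryStationary 5 μ u T σ b) (y : E n) (hy : 1 < ‖y‖) :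
    (∫ p, ((‖y‖ ^ 2 - 1) / ‖b p - y‖ ^ 2) ^ 4 ∂σ ≤ σ.real Set.univ) ∧
    (∫ p, ((‖y‖ ^ 2 - 1) / ‖b p - y‖ ^ 2) ^ 4 ∂σ = σ.real Set.univ →
      ∀ᵐ p ∂μ, u p ∈ T p ∧ y ∈ T p) := by
  have hs : (0 : ℝ) < ‖y‖ := by linarith
  have hc1 : ∀ x : E n, ‖x‖ < ‖y‖ → 0 < 1 + cf y x := fun x hx => by
    have := cf_pos y x hx hy
    linarith
  refine main_of_profile (k := 5) (by norm_num) h y hy (F5 y) (b5 y)
    (fun x => F51 (rf y x) (qf y x) (cf y x)) (fun x => F5c (rf y x) (qf y x) (cf y x))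
    (fun x => B2 (rf y x) (qf y x) (cf y x)) (fun x => B1c (rf y x) (qf y x) (cf y x))
    ?_ ?_ ?_ ?_ ?_ ?_ ?_ ?_
  · intro x hx
    exact contDiffAt_F5 y x (dist_pos y x hx) (hc1 x hx)
  · intro x hx
    exact contDiffAt_b5 y x (dist_pos y x hx) (hc1 x hx)
  · intro x hx
    exact jF y x hs (dist_pos y x (by linarith)) (hc1 x (by linarith))
  · intro x hx
    exact jB1 hs (dist_pos y x (by linarith)) (hc1 x (by linarith))
  · intro x hx
    simp only [b5, F51]
    push_cast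
    ring
  · intro x hx
    have hR := dist_pos y x (by linarith)
    have hr := rf_pos y x hy hR
    have hq := qf_pos y x hy hR
    have ht := cf_sub_nonneg y x hy hx
    have h1 := hc1 x (by linarith)
    have hP := P_pos hr hq (by linarith) (cf_le_one y x hR hy)
    rw [B1c_eq _ _ _ h1]
    have : 0 < ev3 (rf y x) (qf y x) (cf y x) Pl / (3000 * (1 + cf y x) ^ 3) := by positivity
    linarith
  · intro x hx
    have hR := dist_pos y x (by linarith)
    have hr := rf_pos y x hy hR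
    have hq := qf_pos y x hy hR
    have ht := cf_sub_nonneg y x hy hx
    have h1 := hc1 x (by linarith)
    have hQ := Q_pos hr hq (by linarith) (cf_le_one y x hR hy)
    have e1 := Om_eq (rf y x) (qf y x) (cf y x) h1
    have e2 := E_eq (rf y x) (qf y x) (cf y x) h1
    have e3 := B1c_eq (rf y x) (qf y x) (cf y x) h1
    simp only [b5, F5]
    push_cast
    rw [e1, e2, e3]
    generalize ev3 (rf y x) (qf y x) (cf y x) Pl = P at *
    generalize ev3 (rf y x) (qf y x) (cf y x) Ol = O at *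
    generalize ev3 (rf y x) (qf y x) (cf y x) El = Ee at *
    have h5 : 4 * -(-(P / (3000 * (1 + cf y x) ^ 3))) * (Ee / (3000 * (1 + cf y x) ^ 2))
        = (4 * P * Ee) / (3000 ^ 2 * (1 + cf y x) ^ 5) := by
      field_simp
    have h6 : (O / (3000 * (1 + cf y x) ^ 2)) ^ 2
        = ((1 + cf y x) * O ^ 2) / (3000 ^ 2 * (1 + cf y x) ^ 5) := by
      field_simp
    rw [h5, h6]
    exact div_lt_div_of_pos_right hQ (by positivity)
  · intro x hx
    have hR := dist_pos y x (by linarith)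
    have hc : cf y x = rf y x + qf y x := by
      have := cf_sub y x hy hR
      rw [hx] at this
      simp only [one_pow, sub_self, zero_div] at this
      linarith
    have h1 := hc1 x (by linarith)
    rw [hc] at h1
    simp only [b5, F5, B, B1, Bc]
    rw [hc]
    unfold BV5.h BV5.hc g gc
    field_simp
    ring

end Pool.Agent.Helper74.BV5
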