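import Pool.Agent.Helper74.FB.Jet
import Pool.Agent.Helper74.FB.K4Poly

/-!
# The Fraser-Schoen boundary volume inequality for four-dimensional submanifolds

For every free boundary stationary submanifold of dimension four in the unit ball of any Euclidean
space and every conformal automorphism of the ball, the boundary volume does not increase.
-/

open MeasureTheory Module Metric
open scoped RealInnerProductSpace ContDiff Topology

namespace Pool.Agent.Helper74.BV4

open FBM FBM4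

variable {n : ℕ}

/-- The free part of the stream function. -/
noncomputable def G (r c : ℝ) : ℝ :=
  r ^ 2 * (29 / 10 + 3 / 5 * c - c ^ 2) + r ^ 3 * (-(113 / 10) + 43 / 5 * c + 33 / 10 * c ^ 2)
    + r ^ 4 * (219 / 10 - 172 / 5 * c + 23 / 2 * c ^ 2)
/-- `∂ G`, where `∂ r = -r`. -/
noncomputable def G1 (r c : ℝ) : ℝ :=
  -(2 * r ^ 2 * (29 / 10 + 3 / 5 * c - c ^ 2))
    - 3 * r ^ 3 * (-(113 / 10) + 43 / 5 * c + 33 / 10 * c ^ 2)
    - 4 * r ^ 4 * (219 / 10 - 172 / 5 * c + 23 / 2 * c ^ 2)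
/-- `∂ ∂ G`. -/
noncomputable def G2 (r c : ℝ) : ℝ :=
  4 * r ^ 2 * (29 / 10 + 3 / 5 * c - c ^ 2)
    + 9 * r ^ 3 * (-(113 / 10) + 43 / 5 * c + 33 / 10 * c ^ 2)
    + 16 * r ^ 4 * (219 / 10 - 172 / 5 * c + 23 / 2 * c ^ 2)
/-- `G_c`. -/
noncomputable def Gc (r c : ℝ) : ℝ :=
  r ^ 2 * (3 / 5 - 2 * c) + r ^ 3 * (43 / 5 + 33 / 5 * c) + r ^ 4 * (-(172 / 5) + 23 * c)
/-- `∂ G_c`. -/
noncomputable def G1c (r c : ℝ) : ℝ :=
  -(2 * r ^ 2 * (3 / 5 - 2 * c)) - 3 * r ^ 3 * (43 / 5 + 33 / 5 * c)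
    - 4 * r ^ 4 * (-(172 / 5) + 23 * c)
/-- `G_cc`. -/
noncomputable def Gcc (r : ℝ) : ℝ := -(2 * r ^ 2) + 33 / 5 * r ^ 3 + 23 * r ^ 4

/-- The stream function. -/
noncomputable def B (r q c : ℝ) : ℝ := (r + q) / 2 + (c - r - q) * G r c
/-- `∂ B`, where `∂ r = -r`, `∂ q = q`. -/
noncomputable def B1 (r q c : ℝ) : ℝ := (q - r) / 2 + (r - q) * G r c + (c - r - q) * G1 r c
/-- `∂ ∂ B`. -/
noncomputable def B2 (r q c : ℝ) : ℝ :=
  (r + q) / 2 - (r + q) * G r c + 2 * (r - q) * G1 r c + (c - r - q) * G2 r c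
/-- `B_c`. -/
noncomputable def Bc (r q c : ℝ) : ℝ := G r c + (c - r - q) * Gc r c
/-- `B_cc`. -/
noncomputable def Bcc (r q c : ℝ) : ℝ := 2 * Gc r c + (c - r - q) * Gcc r
/-- `∂ B_c`. -/
noncomputable def B1c (r q c : ℝ) : ℝ := G1 r c + (r - q) * Gc r c + (c - r - q) * G1c r c

/-- The radial profile. -/
noncomputable def F4 (y z : E n) : ℝ :=
  1 / 2 - 2 * (rf y z * qf y z) + 3 * (cf y z * B (rf y z) (qf y z) (cf y z))
    - (1 - cf y z ^ 2) * Bc (rf y z) (qf y z) (cf y z)

/-- The angular profile. -/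
noncomputable def b4 (y z : E n) : ℝ := B1 (rf y z) (qf y z) (cf y z)

section Jets

variable {y x : E n}

theorem jG (hy : 0 < ‖y‖) (hx : 0 < ‖x - y‖) :
    HasJet y x (fun z => G (rf y z) (cf y z)) (G1 (rf y x) (cf y x)) (Gc (rf y x) (cf y x)) := by
  have hr := HasJet.r hx
  have hc := HasJet.c hy hx
  refine ((((hr.pow 2).mul (((HasJet.const (29 / 10)).add ((HasJet.const (3 / 5)).mul hc)).sub
    (hc.pow 2))).add ((hr.pow 3).mul (((HasJet.const (-(113 / 10))).add
    ((HasJet.const (43 / 5)).mul hc)).add ((HasJet.const (33 / 10)).mul (hc.pow 2))))).add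
    ((hr.pow 4).mul (((HasJet.const (219 / 10)).sub
    ((HasJet.const (172 / 5)).mul hc)).add ((HasJet.const (23 / 2)).mul (hc.pow 2))))).congr ?_ ?_
  · unfold G1
    norm_num
    ring
  · unfold Gc
    norm_num
    ring

theorem jG1 (hy : 0 < ‖y‖) (hx : 0 < ‖x - y‖) :
    HasJet y x (fun z => G1 (rf y z) (cf y z)) (G2 (rf y x) (cf y x)) (G1c (rf y x) (cf y x)) := by
  have hr := HasJet.r hx
  have hc := HasJet.c hy hx
  have h := ((((HasJet.const (-2)).mul (hr.pow 2)).mul
    (((HasJet.const (29 / 10)).add ((HasJet.const (3 / 5)).mul hc)).sub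
    (hc.pow 2))).add (((HasJet.const (-3)).mul (hr.pow 3)).mul
    (((HasJet.const (-(113 / 10))).add
    ((HasJet.const (43 / 5)).mul hc)).add ((HasJet.const (33 / 10)).mul (hc.pow 2))))).add
    (((HasJet.const (-4)).mul (hr.pow 4)).mul (((HasJet.const (219 / 10)).sub
    ((HasJet.const (172 / 5)).mul hc)).add ((HasJet.const (23 / 2)).mul (hc.pow 2))))
  have e : (fun z => G1 (rf y z) (cf y z)) = fun z => -2 * rf y z ^ 2 *
      (29 / 10 + 3 / 5 * cf y z - cf y z ^ 2)
      + -3 * rf y z ^ 3 * (-(113 / 10) + 43 / 5 * cf y z + 33 / 10 * cf y z ^ 2)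
      + -4 * rf y z ^ 4 * (219 / 10 - 172 / 5 * cf y z + 23 / 2 * cf y z ^ 2) := by
    funext z
    unfold G1
    ring
  rw [e]
  refine h.congr ?_ ?_
  · unfold G2
    norm_num
    ring
  · unfold G1c
    norm_num
    ring

theorem jGc (hy : 0 < ‖y‖) (hx : 0 < ‖x - y‖) :
    HasJet y x (fun z => Gc (rf y z) (cf y z)) (G1c (rf y x) (cf y x)) (Gcc (rf y x)) := by
  have hr := HasJet.r hx
  have hc := HasJet.c hy hx
  refine ((((hr.pow 2).mul ((HasJet.const (3 / 5)).sub ((HasJet.const 2).mul hc))).add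
    ((hr.pow 3).mul ((HasJet.const (43 / 5)).add ((HasJet.const (33 / 5)).mul hc)))).add
    ((hr.pow 4).mul ((HasJet.const (-(172 / 5))).add ((HasJet.const 23).mul hc)))).congr ?_ ?_
  · unfold G1c
    norm_num
    ring
  · unfold Gcc
    norm_num
    ring

theorem jB (hy : 0 < ‖y‖) (hx : 0 < ‖x - y‖) :
    HasJet y x (fun z => B (rf y z) (qf y z) (cf y z)) (B1 (rf y x) (qf y x) (cf y x))
      (Bc (rf y x) (qf y x) (cf y x)) := by
  have hr := HasJet.r hx
  have hq := HasJet.q hx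
  have hc := HasJet.c hy hx
  have h := ((HasJet.const (1 / 2)).mul (hr.add hq)).add (((hc.sub hr).sub hq).mul (jG hy hx))
  have e : (fun z => B (rf y z) (qf y z) (cf y z)) = fun z => 1 / 2 * (rf y z + qf y z)
      + (cf y z - rf y z - qf y z) * G (rf y z) (cf y z) := by
    funext z
    unfold B
    ring
  rw [e]
  refine h.congr ?_ ?_
  · unfold B1
    ring
  · unfold Bc
    ring

theorem jB1 (hy : 0 < ‖y‖) (hx : 0 < ‖x - y‖) :
    HasJet y x (fun z => B1 (rf y z) (qf y z) (cf y z)) (B2 (rf y x) (qf y x) (cf y x))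
      (B1c (rf y x) (qf y x) (cf y x)) := by
  have hr := HasJet.r hx
  have hq := HasJet.q hx
  have hc := HasJet.c hy hx
  have h := (((HasJet.const (1 / 2)).mul (hq.sub hr)).add ((hr.sub hq).mul (jG hy hx))).add
    (((hc.sub hr).sub hq).mul (jG1 hy hx))
  have e : (fun z => B1 (rf y z) (qf y z) (cf y z)) = fun z => 1 / 2 * (qf y z - rf y z)
      + (rf y z - qf y z) * G (rf y z) (cf y z)
      + (cf y z - rf y z - qf y z) * G1 (rf y z) (cf y z) := by
    funext z
    unfold B1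
    ring
  rw [e]
  refine h.congr ?_ ?_
  · unfold B2
    ring
  · unfold B1c
    ring

theorem jBc (hy : 0 < ‖y‖) (hx : 0 < ‖x - y‖) :
    HasJet y x (fun z => Bc (rf y z) (qf y z) (cf y z)) (B1c (rf y x) (qf y x) (cf y x))
      (Bcc (rf y x) (qf y x) (cf y x)) := by
  have hr := HasJet.r hx
  have hq := HasJet.q hx
  have hc := HasJet.c hy hx
  refine ((jG hy hx).add (((hc.sub hr).sub hq).mul (jGc hy hx))).congr ?_ ?_
  · unfold B1c
    ring
  · unfold Bcc
    ring

end Jets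

/-- The logarithmic radial derivative of `F4`. -/
noncomputable def F41 (r q c : ℝ) : ℝ := 3 * (c * B1 r q c) - (1 - c ^ 2) * B1c r q c
/-- The angular derivative of `F4`. -/
noncomputable def F4c (r q c : ℝ) : ℝ :=
  3 * B r q c + 5 * (c * Bc r q c) - (1 - c ^ 2) * Bcc r q c

theorem jF (y x : E n) (hy : 0 < ‖y‖) (hx : 0 < ‖x - y‖) :
    HasJet y x (F4 y) (F41 (rf y x) (qf y x) (cf y x)) (F4c (rf y x) (qf y x) (cf y x)) := by
  have hr := HasJet.r hx
  have hq := HasJet.q hx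
  have hc := HasJet.c hy hx
  refine ((((HasJet.const (1 / 2)).sub ((HasJet.const 2).mul (hr.mul hq))).add
    ((HasJet.const 3).mul (hc.mul (jB hy hx)))).sub
    (((HasJet.const 1).sub (hc.pow 2)).mul (jBc hy hx))).congr ?_ ?_
  · unfold F41
    norm_num
  · unfold F4c
    norm_num
    ring

theorem contDiffAt_F4 (y x : E n) (hx : 0 < ‖x - y‖) : ContDiffAt ℝ ∞ (F4 y) x := by
  have hr := contDiffAt_r y x hx
  have hq := contDiffAt_q y x hx
  have hc := contDiffAt_c y x hx
  unfold F4 B Bc G Gc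
  fun_prop

theorem contDiffAt_b4 (y x : E n) (hx : 0 < ‖x - y‖) : ContDiffAt ℝ ∞ (b4 y) x := by
  have hr := contDiffAt_r y x hx
  have hq := contDiffAt_q y x hx
  have hc := contDiffAt_c y x hx
  unfold b4 B1 G G1
  fun_prop

theorem B1c_eq (r q c : ℝ) : B1c r q c = -(r ^ 2 * Pp r q c / 10) := by
  unfold B1c G1 Gc G1c Pp
  ring

theorem Om_eq (r q c : ℝ) : F4c r q c - 4 * B1 r q c + B2 r q c = r * Op r q c / 10 := by
  unfold F4c B1 B2 B Bc Bcc G G1 G2 Gc Gcc Op
  ring

theorem E_eq (r q c : ℝ) :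
    4 * (1 / 2 - 2 * (r * q) + 3 * (c * B r q c) - (1 - c ^ 2) * Bc r q c) - F41 r q c
      - c * B1 r q c = Ep r q c / 10 := by
  unfold F41 B1 B1c B Bc G G1 Gc G1c Ep
  ring

/-- **The Fraser-Schoen inequality in dimension four.** Let `(μ, u, T, σ, b)` be free boundary
stationary data of dimension `4` in the unit ball of `ℝ ^ n` and let `‖y‖ > 1`. The conformal
automorphism of the ball with pole `y` has conformal factor `(‖y‖ ^ 2 - 1) / ‖x - y‖ ^ 2`, so the
integral on the left is the volume of the image of the boundary. In the case of equality almost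
every tangent space contains the position vector and `y`. -/
theorem main {n : ℕ} {S Γ : Type*} [MeasurableSpace S] [MeasurableSpace Γ] {μ : Measure S}
    {u : S → E n} {T : S → Submodule ℝ (E n)} {σ : Measure Γ} {b : Γ → E n}
    (h : IsFreeBoundaryStationary 4 μ u T σ b) (y : E n) (hy : 1 < ‖y‖) :
    (∫ p, ((‖y‖ ^ 2 - 1) / ‖b p - y‖ ^ 2) ^ 3 ∂σ ≤ σ.real Set.univ) ∧
    (∫ p, ((‖y‖ ^ 2 - 1) / ‖b p - y‖ ^ 2) ^ 3 ∂σ = σ.real Set.univ →
      ∀ᵐ p ∂μ, u p ∈ T p ∧ y ∈ T p) := by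
  have hs : (0 : ℝ) < ‖y‖ := by linarith
  refine main_of_profile (k := 4) (by norm_num) h y hy (F4 y) (b4 y)
    (fun x => F41 (rf y x) (qf y x) (cf y x)) (fun x => F4c (rf y x) (qf y x) (cf y x))
    (fun x => B2 (rf y x) (qf y x) (cf y x)) (fun x => B1c (rf y x) (qf y x) (cf y x))
    ?_ ?_ ?_ ?_ ?_ ?_ ?_ ?_
  · intro x hx
    exact contDiffAt_F4 y x (dist_pos y x hx)
  · intro x hx
    exact contDiffAt_b4 y x (dist_pos y x hx)
  · intro x hx
    exact jF y x hs (dist_pos y x (by linarith))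
  · intro x hx
    exact jB1 hs (dist_pos y x (by linarith))
  · intro x hx
    simp only [b4, F41]
    push_cast
    ring
  · intro x hx
    have hR := dist_pos y x (by linarith)
    have hr := rf_pos y x hy hR
    have hq := qf_pos y x hy hR
    have ht := cf_sub_nonneg y x hy hx
    have hP := P_pos hr hq (by linarith) (cf_le_one y x hR hy)
    rw [B1c_eq]
    have : 0 < rf y x ^ 2 * Pp (rf y x) (qf y x) (cf y x) := by positivity
    linarith
  · intro x hx
    have hR := dist_pos y x (by linarith)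
    have hr := rf_pos y x hy hR
    have hq := qf_pos y x hy hR
    have ht := cf_sub_nonneg y x hy hx
    have hQ := Q_pos hr hq (by linarith) (cf_le_one y x hR hy)
    have e1 := Om_eq (rf y x) (qf y x) (cf y x)
    have e2 := E_eq (rf y x) (qf y x) (cf y x)
    have e3 := B1c_eq (rf y x) (qf y x) (cf y x)
    simp only [b4, F4]
    push_cast
    rw [e1, e2, e3]
    have hr2 : 0 < rf y x ^ 2 := by positivity
    have := mul_lt_mul_of_pos_left hQ hr2
    nlinarith
  · intro x hx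
    have hR := dist_pos y x (by linarith)
    have hc : cf y x = rf y x + qf y x := by
      have := cf_sub y x hy hR
      rw [hx] at this
      simp only [one_pow, sub_self, zero_div] at this
      linarith
    simp only [b4, F4, B, B1, Bc]
    rw [hc]
    ring

end Pool.Agent.Helper74.BV4
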