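import Pool.Agent.Helper81.FBMProfile
import Pool.Agent.Helper81.FBMPoly3

/-!
# The Fraser-Schoen boundary volume inequality for three-dimensional submanifolds

For every free boundary stationary submanifold of dimension three in the unit ball of any Euclidean
space and every conformal automorphism of the ball, the boundary volume does not increase.
-/

open MeasureTheory Module Metric
open scoped RealInnerProductSpace ContDiff Topology

namespace Pool.Agent.Helper74.BV3

open FBM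

variable {n : ℕ}

/-- The radial profile. -/
noncomputable def F3 (y z : E n) : ℝ :=
  (1 + rf y z + qf y z + (cf y z - rf y z - qf y z)
      * (3 / 2 * rf y z + 2 * rf y z ^ 2 * cf y z ^ 2))
    - (1 - cf y z) * (3 / 2 * rf y z + 6 * (rf y z ^ 2 * cf y z ^ 2) - 4 * (rf y z ^ 3 * cf y z)
      - 4 * (rf y z ^ 2 * qf y z * cf y z))

/-- The numerator of the angular profile. -/
noncomputable def N3 (y z : E n) : ℝ :=
  -rf y z + qf y z - 3 / 2 * (rf y z * cf y z) + 3 * rf y z ^ 2 - 4 * (rf y z ^ 2 * cf y z ^ 3)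
    + 6 * (rf y z ^ 3 * cf y z ^ 2) + 2 * (rf y z ^ 2 * qf y z * cf y z ^ 2)

/-- The angular profile. -/
noncomputable def b3 (y z : E n) : ℝ := N3 y z * (1 + cf y z)⁻¹

/-- `N_{cc}`. -/
noncomputable def Ncc (r q c : ℝ) : ℝ := 12 * (r ^ 2 * c) - 4 * r ^ 3 - 4 * (r ^ 2 * q)
/-- `N_c`. -/
noncomputable def Nc (r q c : ℝ) : ℝ :=
  3 / 2 * r + 6 * (r ^ 2 * c ^ 2) - 4 * (r ^ 3 * c) - 4 * (r ^ 2 * q * c)
/-- `∂ N`. -/
noncomputable def N1 (r q c : ℝ) : ℝ :=
  -r + q - 3 / 2 * (r * c) + 3 * r ^ 2 - 4 * (r ^ 2 * c ^ 3)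
    + 6 * (r ^ 3 * c ^ 2) + 2 * (r ^ 2 * q * c ^ 2)
/-- `∂ N_c`. -/
noncomputable def N1c (r q c : ℝ) : ℝ :=
  -(3 / 2) * r - 12 * (r ^ 2 * c ^ 2) + 12 * (r ^ 3 * c) + 4 * (r ^ 2 * q * c)
/-- `∂ ∂ N`. -/
noncomputable def N2 (r q c : ℝ) : ℝ :=
  r + q + 3 / 2 * (r * c) - 6 * r ^ 2 + 8 * (r ^ 2 * c ^ 3)
    - 18 * (r ^ 3 * c ^ 2) - 2 * (r ^ 2 * q * c ^ 2)

theorem dF3 (y x : E n) (hy : 0 < ‖y‖) (hx : 0 < ‖x - y‖) :
    HasFDerivAt (F3 y) ((N1 (rf y x) (qf y x) (cf y x)
        - (1 - cf y x) * N1c (rf y x) (qf y x) (cf y x)) • om1 x y ‖x - y‖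
      + (2 * Nc (rf y x) (qf y x) (cf y x) - (1 - cf y x) * Ncc (rf y x) (qf y x) (cf y x)) •
        (-(cf y x) • om1 x y ‖x - y‖ - om2 y ‖y‖ ‖x - y‖)) x := by
  have hr := hasFDerivAt_r y x hx
  have hq := hasFDerivAt_q y x hx
  have hc := hasFDerivAt_c y x hy hx
  have h1 := (((hr.const_add 1).add hq).add (((hc.sub hr).sub hq).mul
    ((hr.const_mul (3 / 2)).add (((hr.pow 2).const_mul 2).mul (hc.pow 2)))))
  have h2 := ((((hr.const_mul (3 / 2)).add (((hr.pow 2).mul (hc.pow 2)).const_mul 6)).sub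
    (((hr.pow 3).mul hc).const_mul 4)).sub ((((hr.pow 2).mul hq).mul hc).const_mul 4))
  have h3 := h1.sub ((hc.const_sub 1).mul h2)
  refine h3.congr_fderiv ?_
  ext v
  simp only [_root_.smul_apply, smul_eq_mul, _root_.sub_apply, _root_.add_apply,
    _root_.neg_apply, Pi.mul_apply, Pi.sub_apply, Pi.add_apply, nsmul_eq_mul,
    N1, N1c, Nc, Ncc]
  norm_num
  ring

theorem dN3 (y x : E n) (hy : 0 < ‖y‖) (hx : 0 < ‖x - y‖) :
    HasFDerivAt (N3 y) (N2 (rf y x) (qf y x) (cf y x) • om1 x y ‖x - y‖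
      + N1c (rf y x) (qf y x) (cf y x) •
        (-(cf y x) • om1 x y ‖x - y‖ - om2 y ‖y‖ ‖x - y‖)) x := by
  have hr := hasFDerivAt_r y x hx
  have hq := hasFDerivAt_q y x hx
  have hc := hasFDerivAt_c y x hy hx
  have h1 := ((((((hr.neg.add hq).sub ((hr.mul hc).const_mul (3 / 2))).add
    ((hr.pow 2).const_mul 3)).sub (((hr.pow 2).mul (hc.pow 3)).const_mul 4)).add
    (((hr.pow 3).mul (hc.pow 2)).const_mul 6)).add
    ((((hr.pow 2).mul hq).mul (hc.pow 2)).const_mul 2))
  refine h1.congr_fderiv ?_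
  ext v
  simp only [_root_.smul_apply, smul_eq_mul, _root_.sub_apply, _root_.add_apply,
    _root_.neg_apply, Pi.mul_apply, nsmul_eq_mul, N1c, N2]
  norm_num
  ring

theorem db3 (y x : E n) (hy : 0 < ‖y‖) (hx : 0 < ‖x - y‖) (hc0 : 0 < 1 + cf y x) :
    HasFDerivAt (b3 y) ((N2 (rf y x) (qf y x) (cf y x) / (1 + cf y x)) • om1 x y ‖x - y‖
      + (N1c (rf y x) (qf y x) (cf y x) / (1 + cf y x)
          - N1 (rf y x) (qf y x) (cf y x) / (1 + cf y x) ^ 2) •
        (-(cf y x) • om1 x y ‖x - y‖ - om2 y ‖y‖ ‖x - y‖)) x := by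
  have hN := dN3 y x hy hx
  have hc := hasFDerivAt_c y x hy hx
  have hi := (hasDerivAt_inv hc0.ne').comp_hasFDerivAt x (hc.const_add 1)
  refine (hN.mul hi).congr_fderiv ?_
  ext v
  simp only [_root_.smul_apply, smul_eq_mul, _root_.sub_apply, _root_.add_apply, N3, N1,
    Function.comp_apply]
  field_simp
  ring

theorem contDiffAt_F3 (y x : E n) (hx : 0 < ‖x - y‖) : ContDiffAt ℝ ∞ (F3 y) x := by
  have hr := contDiffAt_r y x hx
  have hq := contDiffAt_q y x hx
  have hc := contDiffAt_c y x hx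
  unfold F3
  fun_prop

theorem contDiffAt_b3 (y x : E n) (hx : 0 < ‖x - y‖) (hc0 : 0 < 1 + cf y x) :
    ContDiffAt ℝ ∞ (b3 y) x := by
  have hr := contDiffAt_r y x hx
  have hq := contDiffAt_q y x hx
  have hc := contDiffAt_c y x hx
  have hi : ContDiffAt ℝ ∞ (fun z => (1 + cf y z)⁻¹) x :=
    (contDiffAt_const.add hc).inv hc0.ne'
  have hN : ContDiffAt ℝ ∞ (N3 y) x := by
    unfold N3
    fun_prop
  exact hN.mul hi

/-- The inequality between the coefficients of the quadratic form. -/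
theorem scalar_ineq {r q c : ℝ} (hr : 0 < r) (hq : 0 < q) (ht : 0 ≤ c - r - q) (hc : c ≤ 1) :
    (1 + c) * E3 1 r q c ^ 2 < H3 1 r q c * G3 1 r q c := by
  have h1 := P3_eq r q (c - r - q) (1 - c)
  have h2 := P3_pos hr hq ht (by linarith : (0 : ℝ) ≤ 1 - c)
  have e1 : r + q + (c - r - q) + (1 - c) = 1 := by ring
  have e2 : r + q + (c - r - q) = c := by ring
  rw [e1, e2] at h1
  linarith

theorem H3_pos {r q c : ℝ} (hr : 0 < r) (hq : 0 < q) (ht : 0 ≤ c - r - q) :
    0 < H3 1 r q c := by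
  obtain ⟨t, rfl⟩ : ∃ t, c = r + q + t := ⟨c - r - q, by ring⟩
  have ht' : 0 ≤ t := by linarith
  have : H3 1 r q (r + q + t) = 2 * q + r + 6 * r ^ 2
      + 24 * r ^ 2 * (r + q + t) * t + 16 * r ^ 2 * q * (r + q + t)
      + 16 * r ^ 2 * (r + q + t) ^ 2 * t + 4 * r ^ 3 * (r + q + t) ^ 2
      + 12 * r ^ 2 * q * (r + q + t) ^ 2 := by
    unfold H3
    ring
  rw [this]
  positivity

/-- **The Fraser-Schoen inequality in dimension three.** Let `(μ, u, T, σ, b)` be free boundary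
stationary data of dimension `3` in the unit ball of `ℝ ^ n` and let `‖y‖ > 1`. The conformal
automorphism of the ball with pole `y` has conformal factor `(‖y‖ ^ 2 - 1) / ‖x - y‖ ^ 2`, so the
integral on the left is the volume of the image of the boundary. In the case of equality almost
every tangent space contains the position vector and `y`. -/
theorem main {n : ℕ} {S Γ : Type*} [MeasurableSpace S] [MeasurableSpace Γ] {μ : Measure S}
    {u : S → E n} {T : S → Submodule ℝ (E n)} {σ : Measure Γ} {b : Γ → E n}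
    (h : IsFreeBoundaryStationary 3 μ u T σ b) (y : E n) (hy : 1 < ‖y‖) :
    (∫ p, ((‖y‖ ^ 2 - 1) / ‖b p - y‖ ^ 2) ^ 2 ∂σ ≤ σ.real Set.univ) ∧
    (∫ p, ((‖y‖ ^ 2 - 1) / ‖b p - y‖ ^ 2) ^ 2 ∂σ = σ.real Set.univ →
      ∀ᵐ p ∂μ, u p ∈ T p ∧ y ∈ T p) := by
  have hs : (0 : ℝ) < ‖y‖ := by linarith
  refine main_of_profile (k := 3) (by norm_num) h y hy (F3 y) (b3 y)
    (fun x => N1 (rf y x) (qf y x) (cf y x) - (1 - cf y x) * N1c (rf y x) (qf y x) (cf y x))
    (fun x => 2 * Nc (rf y x) (qf y x) (cf y x) - (1 - cf y x) * Ncc (rf y x) (qf y x) (cf y x))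
    (fun x => N2 (rf y x) (qf y x) (cf y x) / (1 + cf y x))
    (fun x => N1c (rf y x) (qf y x) (cf y x) / (1 + cf y x)
          - N1 (rf y x) (qf y x) (cf y x) / (1 + cf y x) ^ 2)
    ?_ ?_ ?_ ?_ ?_ ?_ ?_ ?_
  · intro x hx
    exact contDiffAt_F3 y x (dist_pos y x hx)
  · intro x hx
    exact contDiffAt_b3 y x (dist_pos y x hx) (by have := cf_pos y x hx hy; linarith)
  · intro x hx
    exact dF3 y x hs (dist_pos y x (by linarith))
  · intro x hx
    exact db3 y x hs (dist_pos y x (by linarith))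
      (by have := cf_pos y x (by linarith) hy; linarith)
  · intro x hx
    have hc0 : 0 < 1 + cf y x := by have := cf_pos y x (by linarith) hy; linarith
    simp only [b3, N3, N1, N1c]
    field_simp
    push_cast
    ring
  · intro x hx
    have hc0 : 0 < 1 + cf y x := by have := cf_pos y x (by linarith) hy; linarith
    have hR := dist_pos y x (by linarith)
    have hH := H3_pos (rf_pos y x hy hR) (qf_pos y x hy hR) (cf_sub_nonneg y x hy hx)
    have : N1c (rf y x) (qf y x) (cf y x) / (1 + cf y x)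
        - N1 (rf y x) (qf y x) (cf y x) / (1 + cf y x) ^ 2
        = -(H3 1 (rf y x) (qf y x) (cf y x) / (2 * (1 + cf y x) ^ 2)) := by
      unfold H3 N1c N1
      field_simp
      ring
    rw [this]
    have : 0 < H3 1 (rf y x) (qf y x) (cf y x) / (2 * (1 + cf y x) ^ 2) := by positivity
    linarith
  · intro x hx
    have hc0 : 0 < 1 + cf y x := by have := cf_pos y x (by linarith) hy; linarith
    have hR := dist_pos y x (by linarith)
    have hI := scalar_ineq (rf_pos y x hy hR) (qf_pos y x hy hR) (cf_sub_nonneg y x hy hx)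
      (cf_le_one y x hR hy)
    have e1 : N1c (rf y x) (qf y x) (cf y x) / (1 + cf y x)
        - N1 (rf y x) (qf y x) (cf y x) / (1 + cf y x) ^ 2
        = -(H3 1 (rf y x) (qf y x) (cf y x) / (2 * (1 + cf y x) ^ 2)) := by
      unfold H3 N1c N1
      field_simp
      ring
    have e2 : (2 * Nc (rf y x) (qf y x) (cf y x) - (1 - cf y x) * Ncc (rf y x) (qf y x) (cf y x))
        - ((3 : ℕ) : ℝ) * b3 y x + N2 (rf y x) (qf y x) (cf y x) / (1 + cf y x)
        = E3 1 (rf y x) (qf y x) (cf y x) / (1 + cf y x) := by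
      simp only [b3, N3, E3, Nc, Ncc, N2]
      field_simp
      push_cast
      ring
    have e3 : ((3 : ℕ) : ℝ) * F3 y x - (N1 (rf y x) (qf y x) (cf y x)
          - (1 - cf y x) * N1c (rf y x) (qf y x) (cf y x)) - cf y x * b3 y x
        = G3 1 (rf y x) (qf y x) (cf y x) / (2 * (1 + cf y x)) := by
      simp only [b3, N3, F3, G3, N1, N1c]
      field_simp
      push_cast
      ring
    rw [e1, e2, e3]
    have e4 : 4 * -(-(H3 1 (rf y x) (qf y x) (cf y x) / (2 * (1 + cf y x) ^ 2)))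
          * (G3 1 (rf y x) (qf y x) (cf y x) / (2 * (1 + cf y x)))
        = (H3 1 (rf y x) (qf y x) (cf y x) * G3 1 (rf y x) (qf y x) (cf y x))
          / (1 + cf y x) ^ 3 := by
      field_simp
      ring
    rw [e4, div_pow, div_lt_div_iff₀ (by positivity) (by positivity)]
    have := mul_lt_mul_of_pos_right hI (by positivity : 0 < (1 + cf y x) ^ 2)
    calc _ = (1 + cf y x) * E3 1 (rf y x) (qf y x) (cf y x) ^ 2 * (1 + cf y x) ^ 2 := by ring
      _ < _ := this
  · intro x hx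
    have hR := dist_pos y x (by linarith)
    have hc0 : 0 < 1 + cf y x := by have := cf_pos y x (by linarith) hy; linarith
    have hc : cf y x = rf y x + qf y x := by
      have := cf_sub y x hy hR
      rw [hx] at this
      simp only [one_pow, sub_self, zero_div] at this
      linarith
    have hc1 : (1 + (rf y x + qf y x)) ≠ 0 := by rw [← hc]; exact hc0.ne'
    simp only [b3, F3, N3]
    rw [hc]
    field_simp
    ring

end Pool.Agent.Helper74.BV3
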